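import Pool.Agent.W597.PM.Norm0

/-! Project PM: the metric is a norm metric. -/

set_option autoImplicit false

namespace Pool.Agent.W597.PM

open Set Filter Topology Pool.Agent.W553.PM

theorem T_norm (h0 : S_norm0) (ha : S_aff) : S_norm := by
  intro M d n H hP hell hn
  obtain ⟨O, hO⟩ := H.ne
  obtain ⟨A, B, C, hA, hD, hbf⟩ := hell O hO
  set D := A * C - B ^ 2 with hDdef
  set a := √A with haA
  set b := √(A * D) with hb
  have haA0 : 0 < a := Real.sqrt_pos.2 hA
  have hb0 : 0 < b := Real.sqrt_pos.2 (by positivity)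
  have ha2 : a ^ 2 = A := Real.sq_sqrt hA.le
  have hb2 : b ^ 2 = A * D := Real.sq_sqrt (by positivity)
  set e₁ : P := (1 / a, 0) with he₁
  set e₂ : P := (-B / b, A / b) with he₂
  have hdt : dt e₁ e₂ ≠ 0 := by
    simp only [dt, he₁, he₂]
    rw [zero_mul, sub_zero]
    positivity
  set L : P → P := fun x => (0 : P) + x.1 • e₁ + x.2 • e₂ with hL
  have hL1 : ∀ x, (L x).1 = x.1 / a - x.2 * B / b := by
    intro x
    simp only [hL, he₁, he₂, Prod.fst_add, Prod.smul_fst, smul_eq_mul, Prod.fst_zero]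
    ring
  have hL2 : ∀ x, (L x).2 = x.2 * A / b := by
    intro x
    simp only [hL, he₁, he₂, Prod.snd_add, Prod.smul_snd, smul_eq_mul, Prod.snd_zero]
    ring
  have hbfL : ∀ x y : P, bf A B C (L x) (L y) = ip x y := by
    intro x y
    simp only [bf, ip, hL1, hL2]
    have e1 : A * (x.1 / a - x.2 * B / b) * (y.1 / a - y.2 * B / b) +
        B * ((x.1 / a - x.2 * B / b) * (y.2 * A / b) + x.2 * A / b * (y.1 / a - y.2 * B / b)) +
        C * (x.2 * A / b) * (y.2 * A / b) =
        x.1 * y.1 * (A / a ^ 2) + x.2 * y.2 * (A * (A * C - B ^ 2) / b ^ 2) := by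
      field_simp
      ring
    rw [e1, ha2, hb2, div_self hA.ne', ← hDdef, div_self (by positivity)]
    ring
  have hLsurj : ∀ X : P, ∃ x, L x = X := by
    intro X
    refine ⟨(a * (X.1 + X.2 * B / A), X.2 * b / A), ?_⟩
    apply Prod.ext
    · rw [hL1]
      field_simp
      ring
    · rw [hL2]
      field_simp
  have hLsub : ∀ x y, L x - L y = L (x - y) := by
    intro x y
    apply Prod.ext
    · rw [Prod.fst_sub, hL1, hL1, hL1, Prod.fst_sub, Prod.snd_sub]; ring
    · rw [Prod.snd_sub, hL2, hL2, hL2, Prod.snd_sub]; ring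
  have hL0 : ∀ u : P, u ≠ 0 → L u ≠ 0 := by
    intro u hu h
    have h1 := hbfL u u
    rw [h] at h1
    simp only [bf, ip, Prod.fst_zero, Prod.snd_zero, mul_zero, add_zero, zero_mul] at h1
    apply hu
    apply Prod.ext
    · simp only [Prod.fst_zero]
      nlinarith [sq_nonneg u.1, sq_nonneg u.2]
    · simp only [Prod.snd_zero]
      nlinarith [sq_nonneg u.1, sq_nonneg u.2]
  obtain ⟨hM', n', hP', hn'⟩ := ha M d n H hP 0 e₁ e₂ hdt
  obtain ⟨κ, hκ, hd⟩ := h0 _ _ n' hM' hP' (by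
    intro Y hY u hu
    have h1 : L (n' Y u) = dt e₁ e₂ • n (L Y) (L u) := by
      have := hn' Y u
      have e : L (n' Y u) = (n' Y u).1 • e₁ + (n' Y u).2 • e₂ := by
        simp only [hL]; rw [zero_add]
      rw [e, this]
      have e2 : L u = u.1 • e₁ + u.2 • e₂ := by
        simp only [hL]; rw [zero_add]
      rw [e2]
    have h2 : n (L Y) (L u) = n O (L u) := hn _ hY _ hO _ (hL0 u hu)
    rw [← hbfL, h1, h2]
    have h3 := hbf (L u) (hL0 u hu)
    have h4 : ∀ (c : ℝ) (v w : P), bf A B C v (c • w) = c * bf A B C v w := by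
      intro c v w
      simp only [bf, Prod.smul_fst, Prod.smul_snd, smul_eq_mul]
      ring
    rw [h4, h3, mul_zero])
  refine ⟨κ ^ 2 * A, κ ^ 2 * B, κ ^ 2 * C, by positivity, ?_, ?_⟩
  · have : κ ^ 2 * A * (κ ^ 2 * C) - (κ ^ 2 * B) ^ 2 = κ ^ 4 * D := by rw [hDdef]; ring
    rw [this]
    positivity
  · intro X hX Y hY
    obtain ⟨x, rfl⟩ := hLsurj X
    obtain ⟨y, rfl⟩ := hLsurj Y
    have h1 := hd x hX y hY
    have h2 : d (L x) (L y) = κ * √(ip (x - y) (x - y)) := h1
    rw [h2, ← hbfL, ← hLsub]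
    have h3 : bf (κ ^ 2 * A) (κ ^ 2 * B) (κ ^ 2 * C) (L x - L y) (L x - L y) =
        κ ^ 2 * bf A B C (L x - L y) (L x - L y) := by
      simp only [bf]; ring
    rw [h3, Real.sqrt_mul (by positivity), Real.sqrt_sq hκ.le]

end Pool.Agent.W597.PM
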