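import Pool.Agent.W553.PM.Stm

/-! Project PM: if the perpendiculars are the Euclidean ones then the metric is a multiple of the
Euclidean metric. -/

set_option autoImplicit false

namespace Pool.Agent.W597.PM

open Set Filter Topology Pool.Agent.W553.PM

/-- Euclidean norm -/
noncomputable def en (v : P) : ℝ := √(ip v v)

/-- the complex number of a vector -/
def tc (v : P) : ℂ := ⟨v.1, v.2⟩

theorem en_eq (v : P) : en v = ‖tc v‖ := by
  rw [en, Complex.norm_def, Complex.normSq_apply]
  rfl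

theorem tc_add (v w : P) : tc (v + w) = tc v + tc w := by
  apply Complex.ext <;> rfl

theorem tc_smul (c : ℝ) (v : P) : tc (c • v) = (c : ℂ) * tc v := by
  apply Complex.ext <;> simp [tc]

theorem tc_inj {v w : P} (h : tc v = tc w) : v = w := by
  have h1 := congrArg Complex.re h
  have h2 := congrArg Complex.im h
  exact Prod.ext h1 h2

theorem tc_ee (θ : ℝ) : tc (ee θ) = Complex.exp (θ * Complex.I) := by
  apply Complex.ext
  · rw [Complex.exp_ofReal_mul_I_re]
    rfl
  · rw [Complex.exp_ofReal_mul_I_im]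
    rfl

theorem en_nonneg (v : P) : 0 ≤ en v := Real.sqrt_nonneg _

theorem en_add (v w : P) : en (v + w) ≤ en v + en w := by
  rw [en_eq, en_eq, en_eq, tc_add]; exact norm_add_le _ _

theorem en_smul (c : ℝ) (v : P) : en (c • v) = |c| * en v := by
  rw [en_eq, en_eq, tc_smul, norm_mul, Complex.norm_real, Real.norm_eq_abs]

theorem en_neg (v : P) : en (-v) = en v := by
  have := en_smul (-1) v
  rw [neg_smul, one_smul] at this
  rw [this]; simp

theorem en_ee (θ : ℝ) : en (ee θ) = 1 := by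
  rw [en_eq, tc_ee, Complex.norm_exp_ofReal_mul_I]

theorem en_smul_ee (c θ : ℝ) : en (c • ee θ) = |c| := by
  rw [en_smul, en_ee, mul_one]

theorem polar (v : P) : ∃ θ : ℝ, v = en v • ee θ := by
  refine ⟨Complex.arg (tc v), tc_inj ?_⟩
  rw [tc_smul, tc_ee, en_eq]
  exact (Complex.norm_mul_exp_arg_mul_I (tc v)).symm

theorem en_pos {v : P} (h : v ≠ 0) : 0 < en v := by
  rw [en_eq, norm_pos_iff]
  intro h1
  exact h (tc_inj (h1.trans rfl))

theorem norm_le_en (v : P) : ‖v‖ ≤ en v := by
  rw [en_eq, Prod.norm_def]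
  exact max_le (Complex.abs_re_le_norm (tc v)) (Complex.abs_im_le_norm (tc v))

theorem en_zero : en 0 = 0 := by
  have := en_smul 0 0
  rw [abs_zero, zero_mul, smul_zero] at this
  exact this

/-- Euclidean disc in `M` -/
def Disc (M : Set P) (X : P) (R : ℝ) : Prop := ∀ v : P, en v < R → X + v ∈ M

theorem Disc.mono {M : Set P} {X : P} {R S : ℝ} (h : Disc M X R) (hSR : S ≤ R) : Disc M X S :=
  fun v hv => h v (lt_of_lt_of_le hv hSR)

theorem Disc.move {M : Set P} {X : P} {R S T : ℝ} (h : Disc M X R) {v : P} (hv : en v < S)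
    (hST : S + T ≤ R) : Disc M (X + v) T := by
  intro w hw
  rw [add_assoc]
  refine h _ ?_
  have := en_add v w
  linarith

theorem exists_disc {M : Set P} (hM : IsOpen M) {X : P} (hX : X ∈ M) : ∃ R > 0, Disc M X R := by
  obtain ⟨R, hR, h⟩ := Metric.isOpen_iff.1 hM X hX
  refine ⟨R, hR, fun v hv => h ?_⟩
  rw [Metric.mem_ball, dist_eq_norm, add_sub_cancel_left]
  exact lt_of_le_of_lt (norm_le_en v) hv

theorem Disc.mem {M : Set P} {X : P} {R : ℝ} (h : Disc M X R) (hR : 0 < R) : X ∈ M := by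
  have := h 0 (by rw [en_zero]; exact hR)
  rwa [add_zero] at this

section

variable {M : Set P} {d : P → P → ℝ} {n : P → P → P}

theorem n_eq (hP : Perp M d n) (he : ∀ Y ∈ M, ∀ u : P, u ≠ 0 → ip u (n Y u) = 0) {Y : P}
    (hY : Y ∈ M) (θ : ℝ) : n Y (ww θ) = - ee θ := by
  have hu : ww θ ≠ 0 := by
    intro h
    have h1 := congrArg Prod.fst h
    have h2 := congrArg Prod.snd h
    simp only [ww, Prod.fst_zero, Prod.snd_zero] at h1 h2
    have := Real.sin_sq_add_cos_sq θ
    rw [h2] at this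
    have h3 : Real.sin θ = 0 := by linarith
    rw [h3] at this
    norm_num at this
  have h1 := hP.n1 Y hY (ww θ) hu
  have h2 := he Y hY (ww θ) hu
  have h3 := Real.sin_sq_add_cos_sq θ
  generalize n Y (ww θ) = N at h1 h2 ⊢
  simp only [dt, ip, ww] at h1 h2
  apply Prod.ext
  · simp only [ee, Prod.fst_neg]
    linear_combination (-Real.cos θ) * h1 - Real.sin θ * h2 - N.1 * h3
  · simp only [ee, Prod.snd_neg]
    linear_combination (-Real.sin θ) * h1 + Real.cos θ * h2 - N.2 * h3

theorem step (hP : Perp M d n)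
    (he : ∀ Y ∈ M, ∀ u : P, u ≠ 0 → ip u (n Y u) = 0) {X : P} (hX : X ∈ M) (ρ θ δ : ℝ)
    (hδ : 0 < Real.cos δ) (h1 : X + ρ • ee θ ∈ M)
    (h2 : X + (ρ / Real.cos δ) • ee (θ + δ) ∈ M) :
    d X (X + ρ • ee θ) ≤ d X (X + (ρ / Real.cos δ) • ee (θ + δ)) := by
  set Y := X + ρ • ee θ with hY
  have hn := n_eq hP he h1 θ
  have hu : ww θ ≠ 0 := by
    intro h
    have h3 := hP.n1 Y h1 (ww θ)
    rw [hn] at h3
    have h4 := congrArg Prod.fst h
    have h5 := congrArg Prod.snd h
    simp only [ww, Prod.fst_zero, Prod.snd_zero] at h4 h5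
    have := Real.sin_sq_add_cos_sq θ
    rw [h5] at this
    have h3 : Real.sin θ = 0 := by linarith
    rw [h3] at this
    norm_num at this
  have hYl : Y + ρ • n Y (ww θ) = X := by
    rw [hn, hY, smul_neg]
    abel
  have hYt : Y + (ρ * Real.tan δ) • ww θ = X + (ρ / Real.cos δ) • ee (θ + δ) := by
    rw [hY, Real.tan_eq_sin_div_cos]
    apply Prod.ext
    · simp only [ww, ee, Prod.fst_add, Prod.smul_fst, smul_eq_mul, Real.cos_add]
      field_simp
      ring
    · simp only [ww, ee, Prod.snd_add, Prod.smul_snd, smul_eq_mul, Real.sin_add]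
      field_simp
      ring
  by_cases ht : ρ * Real.tan δ = 0
  · rw [← hYt, ht, zero_smul, add_zero]
  · have h3 := hP.n2 Y h1 (ww θ) hu ρ (ρ * Real.tan δ) ht (by rw [hYl]; exact hX)
      (by rw [hYt]; exact h2)
    rw [hYl, hYt] at h3
    exact h3.le

theorem iter (hP : Perp M d n)
    (he : ∀ Y ∈ M, ∀ u : P, u ≠ 0 → ip u (n Y u) = 0) {X : P} {R : ℝ} (hD : Disc M X R)
    (ρ θ δ : ℝ) (hδ : 0 < Real.cos δ) (k : ℕ) (hk : |ρ| / Real.cos δ ^ k < R) :
    d X (X + ρ • ee θ) ≤ d X (X + (ρ / Real.cos δ ^ k) • ee (θ + k * δ)) := by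
  have hR : 0 < R := lt_of_le_of_lt (by positivity) hk
  have hX := hD.mem hR
  induction k with
  | zero => simp
  | succ k ih =>
    have h1 : |ρ| / Real.cos δ ^ k ≤ |ρ| / Real.cos δ ^ (k + 1) := by
      apply div_le_div_of_nonneg_left (abs_nonneg _) (by positivity)
      exact pow_le_pow_of_le_one hδ.le (Real.cos_le_one δ) (by omega)
    have h2 := ih (lt_of_le_of_lt h1 hk)
    refine h2.trans ?_
    have e1 : ρ / Real.cos δ ^ (k + 1) = ρ / Real.cos δ ^ k / Real.cos δ := by
      rw [pow_succ, div_div]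
    have e2 : θ + ((k + 1 : ℕ) : ℝ) * δ = θ + k * δ + δ := by push_cast; ring
    rw [e1, e2]
    refine step hP he hX _ _ _ hδ (hD _ ?_) (hD _ ?_)
    · rw [en_smul_ee, abs_div, abs_of_pos (pow_pos hδ k)]
      exact lt_of_le_of_lt h1 hk
    · rw [en_smul_ee, ← e1, abs_div, abs_of_pos (pow_pos hδ (k + 1))]
      exact hk

theorem cos_tendsto (Δ : ℝ) : Tendsto (fun N : ℕ => Real.cos (Δ / N) ^ N) atTop (𝓝 1) := by
  have h1 : Tendsto (fun N : ℕ => 1 - Δ ^ 2 / 2 / (N : ℝ)) atTop (𝓝 1) := by
    have := tendsto_const_div_atTop_nhds_zero_nat (𝕜 := ℝ) (Δ ^ 2 / 2)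
    have h2 := (tendsto_const_nhds (x := (1 : ℝ)) (f := atTop (α := ℕ))).sub this
    simpa using h2
  obtain ⟨N0, hN0⟩ := exists_nat_ge (|Δ| + 1)
  refine tendsto_of_tendsto_of_tendsto_of_le_of_le' h1 tendsto_const_nhds ?_ ?_
  · filter_upwards [eventually_ge_atTop N0] with N hN
    have hN1 : |Δ| + 1 ≤ N := hN0.trans (by exact_mod_cast hN)
    have hNpos : (0 : ℝ) < N := by
      have := abs_nonneg Δ
      linarith
    have h2 : (Δ / N) ^ 2 ≤ 1 := by
      rw [div_pow, div_le_one (by positivity), ← sq_abs Δ]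
      exact pow_le_pow_left₀ (abs_nonneg _) (by linarith) 2
    have h3 := Real.one_sub_sq_div_two_le_cos (x := Δ / N)
    have h4 : 0 ≤ 1 - (Δ / N) ^ 2 / 2 := by linarith
    have h5 := one_add_mul_le_pow (a := -((Δ / N) ^ 2 / 2)) (by linarith) N
    calc 1 - Δ ^ 2 / 2 / (N : ℝ) = 1 + N * -((Δ / N) ^ 2 / 2) := by
          field_simp
          ring
      _ ≤ (1 + -((Δ / N) ^ 2 / 2)) ^ N := h5
      _ = (1 - (Δ / N) ^ 2 / 2) ^ N := by rw [sub_eq_add_neg]
      _ ≤ _ := pow_le_pow_left₀ h4 h3 N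
  · filter_upwards [eventually_ge_atTop N0] with N hN
    have hN1 : |Δ| + 1 ≤ N := hN0.trans (by exact_mod_cast hN)
    have hNpos : (0 : ℝ) < N := by
      have := abs_nonneg Δ
      linarith
    have h2 : (Δ / N) ^ 2 ≤ 1 := by
      rw [div_pow, div_le_one (by positivity), ← sq_abs Δ]
      exact pow_le_pow_left₀ (abs_nonneg _) (by linarith) 2
    have h3 := Real.one_sub_sq_div_two_le_cos (x := Δ / N)
    exact pow_le_one₀ (by linarith) (Real.cos_le_one _)

theorem rot_le (H : PMet M d) (hP : Perp M d n)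
    (he : ∀ Y ∈ M, ∀ u : P, u ≠ 0 → ip u (n Y u) = 0) {X : P} {R : ℝ} (hD : Disc M X R)
    (ρ θ θ' : ℝ) (hρ : |ρ| < R) :
    d X (X + ρ • ee θ) ≤ d X (X + ρ • ee θ') := by
  have hR : 0 < R := lt_of_le_of_lt (abs_nonneg _) hρ
  have hX := hD.mem hR
  set Δ := θ' - θ with hΔ
  have hc := cos_tendsto Δ
  have h1 : Tendsto (fun N : ℕ => ρ / Real.cos (Δ / N) ^ N) atTop (𝓝 ρ) := by
    have := (tendsto_const_nhds (x := ρ) (f := atTop (α := ℕ))).div hc one_ne_zero
    rwa [div_one] at this
  have h1' : Tendsto (fun N : ℕ => |ρ| / Real.cos (Δ / N) ^ N) atTop (𝓝 |ρ|) := by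
    have := (tendsto_const_nhds (x := |ρ|) (f := atTop (α := ℕ))).div hc one_ne_zero
    rwa [div_one] at this
  have h2 : Tendsto (fun N : ℕ => X + (ρ / Real.cos (Δ / N) ^ N) • ee θ') atTop
      (𝓝 (X + ρ • ee θ')) := (h1.smul_const _).const_add X
  have hmem : X + ρ • ee θ' ∈ M := hD _ (by rw [en_smul_ee]; exact hρ)
  have h3 : ContinuousAt (fun Y => d X Y) (X + ρ • ee θ') :=
    (H.cont_right hX).continuousAt (H.opn.mem_nhds hmem)
  have h4 := h3.tendsto.comp h2
  refine ge_of_tendsto h4 ?_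
  have hcos : Tendsto (fun N : ℕ => Real.cos (Δ / N)) atTop (𝓝 1) := by
    have h5 := tendsto_const_div_atTop_nhds_zero_nat (𝕜 := ℝ) Δ
    have h6 := (Real.continuous_cos.tendsto 0).comp h5
    rwa [Real.cos_zero] at h6
  filter_upwards [eventually_ge_atTop 1, h1'.eventually_lt_const hρ,
    hcos.eventually_const_lt (show (0 : ℝ) < 1 by norm_num)] with N hN h5 h6
  have h7 := iter hP he hD ρ θ (Δ / N) h6 N h5
  have hN0 : (N : ℝ) ≠ 0 := by
    have : (1 : ℝ) ≤ N := by exact_mod_cast hN
    linarith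
  have h8 : θ + N * (Δ / N) = θ' := by
    rw [hΔ]; field_simp; ring
  rw [h8] at h7
  exact h7

theorem rot_eq (H : PMet M d) (hP : Perp M d n)
    (he : ∀ Y ∈ M, ∀ u : P, u ≠ 0 → ip u (n Y u) = 0) {X : P} {R : ℝ} (hD : Disc M X R)
    (v w : P) (hv : en v < R) (hvw : en v = en w) : d X (X + v) = d X (X + w) := by
  obtain ⟨θ, hθ⟩ := polar v
  obtain ⟨θ', hθ'⟩ := polar w
  have h1 : |en v| < R := by rw [abs_of_nonneg (en_nonneg v)]; exact hv
  rw [hθ, hθ', ← hvw]
  exact le_antisymm (rot_le H hP he hD _ _ _ h1) (rot_le H hP he hD _ _ _ h1)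

/-- Jensen's equation -/
theorem jensen (H : PMet M d) (hP : Perp M d n)
    (he : ∀ Y ∈ M, ∀ u : P, u ≠ 0 → ip u (n Y u) = 0) {X : P} {R : ℝ} (hD : Disc M X (2 * R))
    (s t : ℝ) (ht : 0 ≤ t) (hts : t ≤ s) (hst : s + t < R) :
    d X (X + (s + t) • ee 0) = 2 * d X (X + s • ee 0) - d X (X + (s - t) • ee 0) := by
  have hR : 0 < R := by linarith
  have hX := hD.mem (by linarith : 0 < 2 * R)
  have hm : ∀ r : ℝ, 0 ≤ r → r < R → X + r • ee 0 ∈ M := by
    intro r h0 h1
    apply hD
    rw [en_smul_ee, abs_of_nonneg h0]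
    linarith
  set Y := X + s • ee 0 with hY
  have hYM : Y ∈ M := hm s (by linarith) (by linarith)
  have hDY : Disc M Y R := by
    refine hD.move (S := R) ?_ (by linarith)
    rw [en_smul_ee, abs_of_nonneg (by linarith)]
    linarith
  have h1 : d X (X + (s + t) • ee 0) = d X Y + d Y (X + (s + t) • ee 0) := by
    apply H.seg X hX Y hYM _ (hm _ (by linarith) (by linarith))
    rcases eq_or_lt_of_le (show 0 ≤ s + t by linarith) with h0 | h0
    · have : s = 0 := by linarith
      rw [hY, ← h0, this]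
      simp
    · rw [segment_eq_image']
      refine ⟨s / (s + t), ⟨div_nonneg (by linarith) h0.le, ?_⟩, ?_⟩
      · rw [div_le_one h0]; linarith
      · simp only [add_sub_cancel_left, smul_smul]
        rw [hY, div_mul_cancel₀ _ h0.ne']
  have h2 : d X Y = d X (X + (s - t) • ee 0) + d (X + (s - t) • ee 0) Y := by
    apply H.seg X hX _ (hm _ (by linarith) (by linarith)) Y hYM
    rcases eq_or_lt_of_le (show 0 ≤ s by linarith) with h0 | h0
    · have : t = 0 := by linarith
      rw [hY, ← h0, this]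
      simp
    · rw [segment_eq_image']
      refine ⟨(s - t) / s, ⟨div_nonneg (by linarith) h0.le, ?_⟩, ?_⟩
      · rw [div_le_one h0]; linarith
      · rw [hY]
        simp only [add_sub_cancel_left, smul_smul]
        rw [div_mul_cancel₀ _ h0.ne']
  have e1 : X + (s + t) • ee 0 = Y + t • ee 0 := by rw [hY, add_smul]; abel
  have e2 : X + (s - t) • ee 0 = Y + (-(t • ee 0)) := by rw [hY, sub_smul]; abel
  have h3 : d Y (Y + t • ee 0) = d Y (Y + (-(t • ee 0))) := by
    apply rot_eq H hP he hDY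
    · rw [en_smul_ee, abs_of_nonneg ht]; linarith
    · rw [en_neg]
  have hm2 := hm (s - t) (by linarith) (by linarith)
  rw [H.symm _ hm2 Y hYM, e2, ← h3, ← e1] at h2
  rw [← e2] at h2
  linarith

theorem linear (H : PMet M d) (hP : Perp M d n)
    (he : ∀ Y ∈ M, ∀ u : P, u ≠ 0 → ip u (n Y u) = 0) {X : P} {R : ℝ} (hR : 0 < R)
    (hD : Disc M X (2 * R)) :
    ∃ κ : ℝ, ∀ v : P, en v < R → d X (X + v) = κ * en v := by
  have hX := hD.mem (by linarith : 0 < 2 * R)
  have hm : ∀ r : ℝ, 0 ≤ r → r < R → X + r • ee 0 ∈ M := by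
    intro r h0 h1
    apply hD
    rw [en_smul_ee, abs_of_nonneg h0]
    linarith
  set φ : ℝ → ℝ := fun s => d X (X + s • ee 0) with hφ
  have hφ0 : φ 0 = 0 := by
    simp only [hφ]
    rw [zero_smul, add_zero]
    exact H.self hX
  have hmul : ∀ (m : ℕ) (h : ℝ), 0 ≤ h → m * h < R →
      φ (m * h) = m * φ h ∧ ((m + 1 : ℝ) * h < R → φ ((m + 1 : ℝ) * h) = (m + 1) * φ h) := by
    intro m
    induction m with
    | zero =>
      intro h h0 h1
      refine ⟨by simp [hφ0], fun _ => by simp⟩
    | succ m ih =>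
      intro h h0 h1
      push_cast at h1 ⊢
      have h2 : (m : ℝ) * h < R := by nlinarith
      obtain ⟨h3, h4⟩ := ih h h0 h2
      refine ⟨h4 h1, ?_⟩
      intro h5
      have h6 : (m : ℝ) + 1 = m + 1 := rfl
      have hmh : 0 ≤ (m : ℝ) * h := by positivity
      have h7 := jensen H hP he hD ((m + 1 : ℝ) * h) h h0 (by nlinarith) (by nlinarith)
      have e1 : (m + 1 : ℝ) * h + h = (m + 1 + 1) * h := by ring
      have e2 : (m + 1 : ℝ) * h - h = m * h := by ring
      rw [e1, e2] at h7
      have h8 := h4 h1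
      simp only [hφ] at h3 h8 ⊢
      rw [h7, h8, h3]
      ring
  set κ := φ (R / 2) / (R / 2) with hκ
  have hlin : ∀ s : ℝ, 0 ≤ s → s < R → φ s = κ * s := by
    intro s hs0 hsR
    set a := s / (R / 2) with ha
    have ha0 : 0 ≤ a := by positivity
    have hfl := tendsto_nat_floor_mul_div_atTop (R := ℝ) ha0
    have hfl2 : Tendsto (fun N : ℕ => (R / 2) * ((⌊a * (N : ℝ)⌋₊ : ℝ) / (N : ℝ))) atTop
        (𝓝 s) := by
      have h1 := (hfl.comp tendsto_natCast_atTop_atTop).const_mul (R / 2)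
      have h2 : R / 2 * a = s := by rw [ha]; field_simp
      rw [h2] at h1
      exact h1
    have hsM := hm s hs0 hsR
    have hcont : ContinuousAt φ s := by
      have h1 : ContinuousAt (fun Y => d X Y) (X + s • ee 0) :=
        (H.cont_right hX).continuousAt (H.opn.mem_nhds hsM)
      have h2 : ContinuousAt (fun s : ℝ => X + s • ee 0) s := by fun_prop
      exact ContinuousAt.comp (f := fun s : ℝ => X + s • ee 0) h1 h2
    have hl := hcont.tendsto.comp hfl2
    have hr := hfl2.const_mul κ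
    refine tendsto_nhds_unique (hl.congr' ?_) hr
    filter_upwards [eventually_ge_atTop 1] with N hN
    have hN0 : (0 : ℝ) < N := by exact_mod_cast hN
    set m := ⌊a * (N : ℝ)⌋₊ with hm'
    set h := (R / 2) / N with hh
    have hh0 : 0 ≤ h := by positivity
    have e1 : (R / 2) * ((m : ℝ) / (N : ℝ)) = m * h := by rw [hh]; ring
    have hmle : (m : ℝ) ≤ a * N := Nat.floor_le (mul_nonneg ha0 hN0.le)
    have hmh : (m : ℝ) * h ≤ s := by
      calc (m : ℝ) * h ≤ a * N * h := mul_le_mul_of_nonneg_right hmle hh0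
        _ = s := by rw [ha, hh]; field_simp
    have hNh : (N : ℝ) * h = R / 2 := by rw [hh]; field_simp
    have h1 := (hmul N h hh0 (by rw [hNh]; linarith)).1
    have h2 := (hmul m h hh0 (by linarith)).1
    show φ (R / 2 * ((m : ℝ) / N)) = κ * (R / 2 * ((m : ℝ) / N))
    rw [e1, h2]
    rw [hNh] at h1
    have h3 : φ h = κ * h := by
      rw [hκ, h1, hh]
      field_simp
    rw [h3]
    ring
  refine ⟨κ, fun v hv => ?_⟩
  rw [← hlin (en v) (en_nonneg v) hv]
  apply rot_eq H hP he (hD.mono (by linarith : R ≤ 2 * R)) _ _ hv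
  rw [en_smul_ee, abs_of_nonneg (en_nonneg v)]

/-- `d` is a multiple of the Euclidean distance near every point -/
theorem loc (H : PMet M d) (hP : Perp M d n)
    (he : ∀ Y ∈ M, ∀ u : P, u ≠ 0 → ip u (n Y u) = 0) {X : P} (hX : X ∈ M) :
    ∃ κ R : ℝ, 0 < R ∧ ∀ v w : P, en v < R → en w < R → X + v ∈ M ∧ X + w ∈ M ∧
      d (X + v) (X + w) = κ * en (w - v) := by
  obtain ⟨R0, hR0, hD0⟩ := exists_disc H.opn hX
  set R := R0 / 6 with hR
  have hRpos : 0 < R := by positivity
  have hD : Disc M X (6 * R) := by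
    have : 6 * R = R0 := by rw [hR]; ring
    rw [this]; exact hD0
  obtain ⟨κ, hκ⟩ := linear H hP he (by positivity : 0 < 2 * R) (hD.mono (by linarith : 2 * (2 * R) ≤ 6 * R))
  refine ⟨κ, R, hRpos, ?_⟩
  intro v w hv hw
  have hv' : X + v ∈ M := hD v (by linarith)
  have hw' : X + w ∈ M := hD w (by linarith)
  refine ⟨hv', hw', ?_⟩
  have hDv : Disc M (X + v) (2 * (2 * R)) := hD.move (S := R) hv (by linarith)
  obtain ⟨κ', hκ'⟩ := linear H hP he (by positivity : 0 < 2 * R) hDv
  have hwv : en (w - v) < 2 * R := by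
    have := en_add w (-v)
    rw [en_neg, ← sub_eq_add_neg] at this
    linarith
  have h1 := hκ' (w - v) hwv
  have e1 : X + v + (w - v) = X + w := by abel
  rw [e1] at h1
  by_cases hv0 : v = 0
  · rw [hv0, sub_zero, add_zero]
    exact hκ w (by linarith)
  · have h2 := hκ' (-v) (by rw [en_neg]; linarith)
    have h3 := hκ v (by linarith)
    rw [add_neg_cancel_right, en_neg, H.symm _ hv' X hX, h3] at h2
    have h4 : κ = κ' := mul_right_cancel₀ (en_pos hv0).ne' h2
    rw [h1, h4]

theorem T_norm0' : S_norm0 := by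
  intro M d n H hP he
  have hloc := fun X (hX : X ∈ M) => loc H hP he hX
  choose! κ R hR hκ using hloc
  -- local constancy
  have hlc : ∀ X ∈ M, ∀ v, en v < R X → κ (X + v) = κ X := by
    intro X hX v hv
    have hXv : X + v ∈ M := (hκ X hX v v hv hv).1
    have hR2 := hR (X + v) hXv
    set r := min (R (X + v)) (R X - en v) / 2 with hr
    have hr0 : 0 < r := by
      have : 0 < min (R (X + v)) (R X - en v) := lt_min hR2 (by linarith)
      positivity
    have hr1 : r < R (X + v) := by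
      have := min_le_left (R (X + v)) (R X - en v)
      rw [hr]; linarith
    have hr2 : r < R X - en v := by
      have := min_le_right (R (X + v)) (R X - en v)
      rw [hr]; linarith
    have h1 := (hκ (X + v) hXv 0 (r • ee 0) (by rw [en_zero]; exact hR2)
      (by rw [en_smul_ee, abs_of_pos hr0]; exact hr1)).2.2
    have h2 := (hκ X hX v (v + r • ee 0) hv (by
      have := en_add v (r • ee 0)
      rw [en_smul_ee, abs_of_pos hr0] at this
      linarith)).2.2
    rw [add_zero, sub_zero, en_smul_ee, abs_of_pos hr0] at h1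
    rw [add_sub_cancel_left, en_smul_ee, abs_of_pos hr0, ← add_assoc, h1] at h2
    exact mul_right_cancel₀ hr0.ne' h2
  -- along segments
  have hseg : ∀ X ∈ M, ∀ Y ∈ M, κ Y = κ X ∧ d X Y = κ X * en (Y - X) := by
    intro X hX Y hY
    set v := Y - X with hv
    have hm : ∀ t ∈ Icc (0 : ℝ) 1, X + t • v ∈ M := by
      intro t ht
      have := H.cvx hX hY (a := 1 - t) (b := t) (by linarith [ht.2]) ht.1 (by ring)
      convert this using 1
      rw [hv, smul_sub, sub_smul, one_smul]
      abel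
    have hnear : ∀ t ∈ Icc (0 : ℝ) 1, ∃ δ > 0, ∀ s : ℝ, |s - t| < δ →
        en ((s - t) • v) < R (X + t • v) := by
      intro t ht
      have h1 := hR _ (hm t ht)
      refine ⟨R (X + t • v) / (en v + 1), by have := en_nonneg v; positivity, ?_⟩
      intro s hs
      rw [en_smul]
      have h2 := en_nonneg v
      rw [lt_div_iff₀ (by linarith)] at hs
      nlinarith [abs_nonneg (s - t)]
    have hadd : ∀ s t : ℝ, X + s • v = X + t • v + (s - t) • v := by
      intro s t
      rw [sub_smul]; abel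
    have hc : ∀ t ∈ Icc (0 : ℝ) 1, ∀ᶠ s in 𝓝 t, κ (X + s • v) = κ (X + t • v) := by
      intro t ht
      obtain ⟨δ, hδ, hδ2⟩ := hnear t ht
      filter_upwards [Metric.ball_mem_nhds t hδ] with s hs
      rw [Metric.mem_ball, Real.dist_eq] at hs
      rw [hadd s t]
      exact hlc _ (hm t ht) _ (hδ2 s hs)
    have hconst : ∀ t ∈ Icc (0 : ℝ) 1, κ (X + t • v) = κ (X + (0 : ℝ) • v) := by
      refine constant_of_has_deriv_right_zero (f := fun t : ℝ => κ (X + t • v)) ?_ ?_
      · intro t ht
        have h1 : (fun s : ℝ => κ (X + s • v)) =ᶠ[𝓝 t] fun _ => κ (X + t • v) := hc t ht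
        exact (continuousAt_const.congr h1.symm).continuousWithinAt
      · intro t ht
        have h1 : (fun s : ℝ => κ (X + s • v)) =ᶠ[𝓝 t] fun _ => κ (X + t • v) :=
          hc t ⟨ht.1, ht.2.le⟩
        exact ((hasDerivAt_const t _).congr_of_eventuallyEq h1).hasDerivWithinAt
    have hconst' : ∀ t ∈ Icc (0 : ℝ) 1, κ (X + t • v) = κ X := by
      intro t ht
      rw [hconst t ht, zero_smul, add_zero]
    have h1v : X + (1 : ℝ) • v = Y := by rw [one_smul, hv]; abel
    refine ⟨?_, ?_⟩
    · have := hconst' 1 ⟨zero_le_one, le_rfl⟩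
      rwa [h1v] at this
    · have hF : ∀ t ∈ Icc (0 : ℝ) 1, d X (X + t • v) - κ X * en v * t =
          d X (X + (0 : ℝ) • v) - κ X * en v * 0 := by
        refine constant_of_has_deriv_right_zero
          (f := fun t : ℝ => d X (X + t • v) - κ X * en v * t) ?_ ?_
        · refine ContinuousOn.sub ?_ (by fun_prop)
          refine (H.cont_right hX).comp (by fun_prop) ?_
          intro t ht
          exact hm t ht
        · intro t ht
          have ht' : t ∈ Icc (0 : ℝ) 1 := ⟨ht.1, ht.2.le⟩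
          obtain ⟨δ, hδ, hδ2⟩ := hnear t ht'
          have h2 : (fun s : ℝ => d X (X + s • v) - κ X * en v * s) =ᶠ[𝓝[≥] t]
              fun _ => d X (X + t • v) - κ X * en v * t := by
            have h3 : Ico t (min (t + δ) 1) ∈ 𝓝[≥] t :=
              Ico_mem_nhdsGE (lt_min (by linarith) ht.2)
            filter_upwards [h3] with s hs
            have hs1 : s ∈ Icc (0 : ℝ) 1 :=
              ⟨by linarith [ht.1, hs.1], (lt_of_lt_of_le hs.2 (min_le_right _ _)).le⟩
            have hs2 : |s - t| < δ := by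
              rw [abs_of_nonneg (by linarith [hs.1])]
              have := lt_of_lt_of_le hs.2 (min_le_left _ _)
              linarith
            have h4 : d X (X + s • v) = d X (X + t • v) + d (X + t • v) (X + s • v) := by
              apply H.seg X hX _ (hm t ht') _ (hm s hs1)
              rcases eq_or_lt_of_le hs1.1 with h0 | h0
              · have : t = 0 := by linarith [ht.1, hs.1]
                rw [← h0, this]
                simp
              · rw [segment_eq_image']
                refine ⟨t / s, ⟨div_nonneg ht.1 h0.le, ?_⟩, ?_⟩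
                · rw [div_le_one h0]; exact hs.1
                · simp only [add_sub_cancel_left, smul_smul]
                  rw [div_mul_cancel₀ _ h0.ne']
            have h5 := (hκ _ (hm t ht') 0 ((s - t) • v)
              (by rw [en_zero]; exact hR _ (hm t ht')) (hδ2 s hs2)).2.2
            rw [add_zero, sub_zero, ← hadd, hconst' t ht', en_smul,
              abs_of_nonneg (by linarith [hs.1])] at h5
            rw [h4, h5]
            ring
          exact ((hasDerivWithinAt_const t _ _).congr_of_eventuallyEq h2 rfl)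
      have h6 := hF 1 ⟨zero_le_one, le_rfl⟩
      rw [h1v, zero_smul, add_zero, H.self hX] at h6
      linarith
  obtain ⟨X0, hX0⟩ := H.ne
  refine ⟨κ X0, ?_, ?_⟩
  · have hR0 := hR X0 hX0
    have h1 := (hκ X0 hX0 0 ((R X0 / 2) • ee 0) (by rw [en_zero]; exact hR0)
      (by rw [en_smul_ee, abs_of_pos (by positivity)]; linarith))
    rw [add_zero, sub_zero, en_smul_ee, abs_of_pos (by positivity : 0 < R X0 / 2)] at h1
    have h2 : X0 ≠ X0 + (R X0 / 2) • ee 0 := by
      intro h3
      have h4 : (R X0 / 2) • ee 0 = 0 := by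
        have := h3.symm
        rwa [add_eq_left] at this
      have h5 := en_smul_ee (R X0 / 2) 0
      rw [h4, en_zero, abs_of_pos (by positivity)] at h5
      linarith
    have h3 := H.pos h1.1 h1.2.1 h2
    rw [h1.2.2] at h3
    by_contra hcon
    push Not at hcon
    nlinarith
  · intro x hx y hy
    have h1 := (hseg x hx y hy).2
    have h2 := (hseg X0 hX0 x hx).1
    rw [h1, h2]
    have h3 : en (y - x) = √(ip (x - y) (x - y)) := by
      rw [← en_neg, neg_sub]
      rfl
    rw [h3]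

theorem T_norm0 (_ : S_nhom) : S_norm0 := T_norm0'

end

end Pool.Agent.W597.PM
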